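import Pool.Agent.Helper84_Efx.Charity

/-! EFX with at most n/2 - 1 unallocated items for additive pair-demand valuations. -/

namespace Pool.Agent.Results.MP_630c9c_lc.FewUnallocated

open Pool.Agent.H84Efx

theorem result {M : Type*} [Fintype M] [DecidableEq M] (n : ℕ) (hn : 1 ≤ n)
    (w : Fin n → M → ℝ) (hw : ∀ i g, 0 ≤ w i g) :
    ∃ (X : Fin n → Finset M) (U : Finset M),
      (∀ i j, i ≠ j → Disjoint (X i) (X j)) ∧ (∀ g, g ∈ U ↔ ∀ i, g ∉ X i) ∧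
      (∀ i j, ∀ g ∈ X j, pdv (w i) ((X j).erase g) ≤ pdv (w i) (X i)) ∧
      (∀ i, pdv (w i) U ≤ pdv (w i) (X i)) ∧ U.card ≤ n / 2 - 1 := by
  haveI : Nonempty (Fin n) := ⟨⟨0, hn⟩⟩
  obtain ⟨X, U, h1, h2, h3, h4, h5⟩ := charity (w := w) hw
  rw [Fintype.card_fin] at h5
  exact ⟨X, U, h1, h2, h3, h4, h5⟩

end Pool.Agent.Results.MP_630c9c_lc.FewUnallocated
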