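import Pool.Agent.Helper84_Efx.FourS

/-! EFX allocations exist for four agents with additive pair-demand valuations. -/

namespace Pool.Agent.Results.MP_630c9c_lc.FourAgents

open Pool.Agent.H84Efx

theorem result {M : Type*} [Fintype M] [DecidableEq M] (w : Fin 4 → M → ℝ)
    (hw : ∀ i g, 0 ≤ w i g) :
    ∃ X : Fin 4 → Finset M, (∀ i j, i ≠ j → Disjoint (X i) (X j)) ∧ (∀ g, ∃ i, g ∈ X i) ∧
      ∀ i j, ∀ g ∈ X j, pdv (w i) ((X j).erase g) ≤ pdv (w i) (X i) :=
  full_four hw (by simp)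

end Pool.Agent.Results.MP_630c9c_lc.FourAgents
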