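import Pool.Agent.Helper72_EFX.Types

/-! EFX allocations for additive pair-demand valuations if all agents except at most one have tame
(for example two-valued or leveled) weights; any number of agents and items. -/

namespace Pool.Agent.Results.MP_630c9c_lc.LeveledWeights

open Pool.Agent.H84Efx Pool.Agent.H72Efx

theorem result {ι M : Type*} [Fintype ι] [Fintype M] [DecidableEq M]
    (w : ι → M → ℝ) (hw : ∀ i g, 0 ≤ w i g) (s : ι)
    (h : ∀ i, i ≠ s → Bivalued (w i) ∨ Leveled (w i) ∨ Rich (w i) (Fintype.card ι) ∨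
      Tame (w i) Finset.univ (Fintype.card ι)) :
    ∃ X : ι → Finset M, (∀ i j, i ≠ j → Disjoint (X i) (X j)) ∧ (∀ g, ∃ i, g ∈ X i) ∧
      ∀ i j, ∀ g ∈ X j, pdv (w i) ((X j).erase g) ≤ pdv (w i) (X i) := by
  obtain ⟨X, hX⟩ := main hw s (Finset.univ : Finset ι).card Finset.univ Finset.univ rfl
    ⟨s, Finset.mem_univ s⟩ (by
      intro i _ his
      rw [Finset.card_univ]
      rcases h i his with h1 | h1 | h1 | h1
      · exact (h1.leveled (hw i)).tame _
      · exact h1.tame _
      · exact h1.tame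
      · exact h1)
  refine ⟨X, fun i j hij => hX.disj i (Finset.mem_univ i) j (Finset.mem_univ j) hij, ?_,
    fun i j g hg => hX.efx i (Finset.mem_univ i) j (Finset.mem_univ j) g hg⟩
  intro g
  obtain ⟨i, -, hi⟩ := hX.cov g (Finset.mem_univ g)
  exact ⟨i, hi⟩

end Pool.Agent.Results.MP_630c9c_lc.LeveledWeights
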