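import Pool.Agent.Helper72_EFX.Last

/-! EFX allocations for additive pair-demand valuations if one agent, or a group of agents, is
undemanding and the other agents are arbitrary; any number of agents and items. -/

namespace Pool.Agent.Results.MP_630c9c_lc.UndemandingAgent

open Pool.Agent.H84Efx Pool.Agent.H72Efx

theorem result {ι M : Type*} [Fintype ι] [Fintype M] [DecidableEq ι] [DecidableEq M]
    (w : ι → M → ℝ) (hw : ∀ i g, 0 ≤ w i g)
    -- a possibly empty group `K` of agents, each content with one item `b i`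
    (K : Finset ι) (b : ι → M) (hb : ∀ i ∈ K, ∀ j ∈ K, b i = b j → i = j)
    (hK : ∀ i ∈ K, ∀ y ∈ Finset.univ \ K.image b, ∀ z ∈ Finset.univ \ K.image b, y ≠ z →
      w i y + w i z ≤ w i (b i))
    -- the numbers of the other agents and of the other items
    (n m : ℕ) (hn : n = (Finset.univ \ K).card) (hm : m = (Finset.univ \ K.image b).card)
    -- the undemanding agents
    (F : Finset ι) (hFK : Disjoint F K) (hF : F.Nonempty)
    (q : ℕ) (hq : q = min (2 * (n - F.card)) (m - 2 * F.card))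
    (hU : m ≤ n ∨ (n + F.card ≤ m ∧ ∀ i ∈ F, ∃ A C : Finset M,
      A ⊆ Finset.univ \ K.image b ∧ C ⊆ Finset.univ \ K.image b ∧
      q + F.card ≤ A.card ∧ q + 2 * F.card ≤ C.card ∧
      ∀ x ∈ A, ∀ z ∈ C, x ≠ z → ∀ y ∈ Finset.univ \ K.image b, w i y ≤ w i x + w i z)) :
    ∃ X : ι → Finset M, (∀ i j, i ≠ j → Disjoint (X i) (X j)) ∧ (∀ g, ∃ i, g ∈ X i) ∧
      ∀ i j, ∀ g ∈ X j, pdv (w i) ((X j).erase g) ≤ pdv (w i) (X i) := by
  have hFs : F ⊆ Finset.univ \ K := fun i hi =>
    Finset.mem_sdiff.mpr ⟨Finset.mem_univ i, Finset.disjoint_left.mp hFK hi⟩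
  have key : ∃ X', Efx w (Finset.univ \ K) (Finset.univ \ K.image b) X' := by
    rcases hU with hc | ⟨hc, hU⟩
    · exact few_items (hF.mono hFs) (by omega)
    · have hex : ∀ i, ∃ A C : Finset M, i ∈ F → (A ⊆ Finset.univ \ K.image b ∧
          C ⊆ Finset.univ \ K.image b ∧ q + F.card ≤ A.card ∧ q + 2 * F.card ≤ C.card ∧
          ∀ x ∈ A, ∀ z ∈ C, x ≠ z → ∀ y ∈ Finset.univ \ K.image b, w i y ≤ w i x + w i z) := by
        intro i
        by_cases hi : i ∈ F
        · obtain ⟨A, C, h1⟩ := hU i hi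
          exact ⟨A, C, fun _ => h1⟩
        · exact ⟨∅, ∅, fun h => absurd h hi⟩
      choose A C hAC using hex
      exact last hw hFs hF (by omega) (q := q) (by omega) A C
        (fun i hi => (hAC i hi).2.2.1) (fun i hi => (hAC i hi).2.2.2.1)
        (fun i hi => (hAC i hi).1) (fun i hi => (hAC i hi).2.1)
        (fun i hi => (hAC i hi).2.2.2.2)
  obtain ⟨X', hX'⟩ := key
  obtain ⟨X, hX⟩ := content hw (Finset.subset_univ K) (Finset.subset_univ _)
    (fun i hi j hj e => hb i hi j hj e) rfl hK hX'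
  refine ⟨X, fun i j hij => hX.disj i (Finset.mem_univ i) j (Finset.mem_univ j) hij, ?_,
    fun i j g hg => hX.efx i (Finset.mem_univ i) j (Finset.mem_univ j) g hg⟩
  intro g
  obtain ⟨i, -, hi⟩ := hX.cov g (Finset.mem_univ g)
  exact ⟨i, hi⟩

end Pool.Agent.Results.MP_630c9c_lc.UndemandingAgent
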